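import Mathlib

set_option autoImplicit false

/-!
# Conformal iterated function systems on the line, dimension spectrum, local dimension
-/

open Filter Topology Set

namespace Pool.Agent.Q187.Sim

/-- `comp φ ω n = φ (ω 0) ∘ ⋯ ∘ φ (ω (n - 1))` -/
def comp {E : Type} (φ : E → ℝ → ℝ) (ω : ℕ → E) : ℕ → ℝ → ℝ
  | 0 => id
  | n + 1 => comp φ ω n ∘ φ (ω n)

/-- A conformal iterated function system (in the sense of Mauldin and Urbański) on `ℝ ^ d`, `d = 1`,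
with alphabet `E`. In dimension one a cone with vertex `x` and height `l` is one of the intervals
`(x, x + l)`, `(x - l, x)`, and a conformal map is a map with a derivative without zeros. -/
structure CIFS (E : Type) where
  /-- the compact set -/
  X : Set ℝ
  /-- the maps -/
  φ : E → ℝ → ℝ
  /-- the open set -/
  V : Set ℝ
  isCompact : IsCompact X
  isConnected : IsConnected X
  closure_interior : closure (interior X) = X
  mapsTo : ∀ e, MapsTo (φ e) X X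
  contraction : ∃ s : ℝ, s < 1 ∧ ∀ e, ∀ x ∈ X, ∀ y ∈ X, |φ e x - φ e y| ≤ s * |x - y|
  open_set : ∀ a b, a ≠ b → Disjoint (φ a '' interior X) (φ b '' interior X)
  isOpen_V : IsOpen V
  isConnected_V : IsConnected V
  subset_V : X ⊆ V
  mapsTo_V : ∀ e, MapsTo (φ e) V V
  injOn_V : ∀ e, InjOn (φ e) V
  deriv_V : ∀ e, ∀ x ∈ V, DifferentiableAt ℝ (φ e) x ∧ deriv (φ e) x ≠ 0
  holder_V : ∀ e, ∃ ε C : ℝ, 0 < ε ∧ ∀ x ∈ V, ∀ y ∈ V,
    |deriv (φ e) x - deriv (φ e) y| ≤ C * |x - y| ^ ε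
  cone : ∃ l : ℝ, 0 < l ∧ ∀ x ∈ frontier X,
    Ioo x (x + l) ⊆ interior X ∨ Ioo (x - l) x ⊆ interior X
  distortion : ∃ K : ℝ, 1 ≤ K ∧ ∀ (ω : ℕ → E) (n : ℕ), ∀ x ∈ V, ∀ y ∈ V,
    |deriv (comp φ ω n) y| ≤ K * |deriv (comp φ ω n) x|

/-- the limit set of a subsystem -/
def CIFS.J {E : Type} (S : CIFS E) (F : Set E) : Set ℝ :=
  {x | ∃ ω : ℕ → E, (∀ n, ω n ∈ F) ∧ ∀ n, x ∈ comp S.φ ω n '' S.X}

/-- the local Hausdorff dimension of `F` at `x` -/
noncomputable def locDim (F : Set ℝ) (x : ℝ) : ENNReal :=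
  ⨅ (ε : ℝ) (_ : 0 < ε), dimH (F ∩ Metric.ball x ε)

end Pool.Agent.Q187.Sim
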