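import Mathlib
import Pool.Agent.Q187.Code
import Pool.Agent.Q187.Sim.CIFS

set_option autoImplicit false

/-!
# Similarity systems on the unit interval and the dimension of their limit sets
-/

open Filter Topology Set Pool.Agent.Q187.Code MeasureTheory MeasureTheory.Measure
open scoped ENNReal NNReal

namespace Pool.Agent.Q187.Sim

/-- a system of similarities of the unit interval with disjoint images -/
structure Sys (E : Type) where
  /-- translations -/
  b : E → ℝ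
  /-- ratios -/
  r : E → ℝ
  r_pos : ∀ e, 0 < r e
  r_le : ∀ e, r e ≤ 1 / 4
  b_nonneg : ∀ e, 0 ≤ b e
  b_add : ∀ e, b e + r e ≤ 1
  disj : ∀ e e', e ≠ e' → b e + r e < b e' ∨ b e' + r e' < b e

variable {E : Type} (S : Sys E)

/-- the maps -/
def Sys.φ (e : E) (x : ℝ) : ℝ := S.b e + S.r e * x

/-- limit sets -/
def Sys.J (F : Set E) : Set ℝ :=
  {x | ∃ ω : ℕ → E, (∀ n, ω n ∈ F) ∧ ∀ n, x ∈ comp S.φ ω n '' Icc 0 1}

namespace Sys

lemma φ_mem (e : E) {x : ℝ} (hx : x ∈ Icc (0 : ℝ) 1) : S.φ e x ∈ Icc (0 : ℝ) 1 := by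
  have h1 := S.r_pos e
  have h2 := S.b_nonneg e
  have h3 := S.b_add e
  unfold φ
  constructor
  · nlinarith [hx.1]
  · nlinarith [hx.2, mul_le_mul_of_nonneg_left hx.2 h1.le]

/-- product of ratios -/
def R (ω : ℕ → E) (n : ℕ) : ℝ := ∏ j ∈ Finset.range n, S.r (ω j)

lemma R_pos (ω : ℕ → E) (n : ℕ) : 0 < S.R ω n := Finset.prod_pos fun _ _ => S.r_pos _

lemma R_succ (ω : ℕ → E) (n : ℕ) : S.R ω (n + 1) = S.R ω n * S.r (ω n) := Finset.prod_range_succ _ _

lemma R_le (ω : ℕ → E) (n : ℕ) : S.R ω n ≤ (1 / 4) ^ n := by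
  induction n with
  | zero => simp [R]
  | succ n ih =>
    rw [R_succ, pow_succ]
    exact mul_le_mul ih (S.r_le _) (S.r_pos _).le (by positivity)

lemma comp_sub (ω : ℕ → E) (n : ℕ) (x y : ℝ) :
    comp S.φ ω n x - comp S.φ ω n y = S.R ω n * (x - y) := by
  induction n generalizing x y with
  | zero => simp [comp, R]
  | succ n ih =>
    show comp S.φ ω n (S.φ (ω n) x) - comp S.φ ω n (S.φ (ω n) y) = _
    rw [ih, R_succ]
    unfold φ
    ring

lemma comp_mem (ω : ℕ → E) (n : ℕ) {x : ℝ} (hx : x ∈ Icc (0 : ℝ) 1) :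
    comp S.φ ω n x ∈ Icc (0 : ℝ) 1 := by
  induction n generalizing x with
  | zero => exact hx
  | succ n ih => exact ih (S.φ_mem _ hx)

lemma comp_congr {ω ω' : ℕ → E} {n : ℕ} (h : ∀ j < n, ω j = ω' j) :
    comp S.φ ω n = comp S.φ ω' n := by
  induction n with
  | zero => rfl
  | succ n ih =>
    show comp S.φ ω n ∘ S.φ (ω n) = comp S.φ ω' n ∘ S.φ (ω' n)
    rw [ih fun j hj => h j (by omega), h n (Nat.lt_succ_self n)]

lemma R_congr {ω ω' : ℕ → E} {n : ℕ} (h : ∀ j < n, ω j = ω' j) : S.R ω n = S.R ω' n :=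
  Finset.prod_congr rfl fun j hj => by rw [h j (Finset.mem_range.1 hj)]

lemma zero_mem : (0 : ℝ) ∈ Icc (0 : ℝ) 1 := ⟨le_refl _, zero_le_one⟩

/-- the coded point -/
noncomputable def pt (ω : ℕ → E) : ℝ := limUnder atTop fun n => comp S.φ ω n 0

lemma comp_add (ω : ℕ → E) (n k : ℕ) (x : ℝ) :
    comp S.φ ω (n + k) x = comp S.φ ω n (comp S.φ (fun j => ω (n + j)) k x) := by
  induction k generalizing x with
  | zero => rfl
  | succ k ih =>
    show comp S.φ ω (n + k) (S.φ (ω (n + k)) x) = _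
    rw [ih]
    rfl

lemma pt_tendsto (ω : ℕ → E) : Tendsto (fun n => comp S.φ ω n 0) atTop (𝓝 (S.pt ω)) := by
  have hc : CauchySeq fun n => comp S.φ ω n 0 := by
    refine cauchySeq_of_le_geometric (1 / 4) 1 (by norm_num) fun n => ?_
    rw [Real.dist_eq, one_mul]
    show |comp S.φ ω n 0 - comp S.φ ω n (S.φ (ω n) 0)| ≤ _
    rw [comp_sub, abs_mul, abs_of_pos (S.R_pos ω n), zero_sub, abs_neg]
    have h1 := S.φ_mem (ω n) zero_mem
    calc S.R ω n * |S.φ (ω n) 0| ≤ (1 / 4) ^ n * 1 := by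
          apply mul_le_mul (S.R_le ω n) _ (abs_nonneg _) (by positivity)
          rw [abs_le]
          exact ⟨by linarith [h1.1], h1.2⟩
      _ = _ := mul_one _
  exact hc.tendsto_limUnder

lemma pt_mem (ω : ℕ → E) : S.pt ω ∈ Icc (0 : ℝ) 1 :=
  isClosed_Icc.mem_of_tendsto (S.pt_tendsto ω) (Eventually.of_forall fun n => S.comp_mem ω n zero_mem)

lemma comp_cont (ω : ℕ → E) (n : ℕ) : Continuous (comp S.φ ω n) := by
  induction n with
  | zero => exact continuous_id
  | succ n ih =>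
    refine ih.comp ?_
    unfold φ
    fun_prop

lemma pt_eq (ω : ℕ → E) (n : ℕ) : S.pt ω = comp S.φ ω n (S.pt fun j => ω (n + j)) := by
  have h1 := (S.pt_tendsto ω).comp (tendsto_add_atTop_nat n)
  have h2 := ((S.comp_cont ω n).tendsto _).comp (S.pt_tendsto fun j => ω (n + j))
  refine tendsto_nhds_unique h1 ?_
  refine h2.congr fun k => ?_
  rw [Function.comp_apply, Function.comp_apply, add_comm, comp_add]

lemma pt_mem_J {F : Set E} {ω : ℕ → E} (h : ∀ n, ω n ∈ F) : S.pt ω ∈ S.J F :=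
  ⟨ω, h, fun n => ⟨_, S.pt_mem _, (S.pt_eq ω n).symm⟩⟩

/-! ### upper bound -/

/-- words of length `n` -/
def W (F : Set E) : ℕ → Type
  | 0 => Unit
  | n + 1 => F × W F n

instance W_countable [Countable E] (F : Set E) : ∀ n, Countable (W F n)
  | 0 => inferInstanceAs (Countable Unit)
  | n + 1 => by
    have := W_countable F n
    exact inferInstanceAs (Countable (F × W F n))

/-- the composition of the maps of a word -/
def Wc (F : Set E) : (n : ℕ) → W F n → ℝ → ℝ
  | 0, _ => id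
  | n + 1, w => Wc F n w.2 ∘ S.φ w.1

/-- the product of the ratios of a word -/
noncomputable def WP (F : Set E) : (n : ℕ) → W F n → ℝ≥0∞
  | 0, _ => 1
  | n + 1, w => ENNReal.ofReal (S.r w.1) * WP F n w.2

lemma WP_le (F : Set E) (n : ℕ) (w : W F n) : S.WP F n w ≤ ENNReal.ofReal (1 / 4) ^ n := by
  induction n with
  | zero => simp [WP]
  | succ n ih =>
    show ENNReal.ofReal (S.r w.1) * S.WP F n w.2 ≤ _
    rw [pow_succ']
    exact mul_le_mul' (ENNReal.ofReal_le_ofReal (S.r_le _)) (ih w.2)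

lemma sum_WP (F : Set E) {s : ℝ} (hs : 0 ≤ s) (h : ∑' e : F, ENNReal.ofReal (S.r e) ^ s ≤ 1) (n : ℕ) :
    ∑' w : W F n, S.WP F n w ^ s ≤ 1 := by
  induction n with
  | zero =>
    show ∑' w : Unit, S.WP F 0 w ^ s ≤ 1
    simp [WP]
  | succ n ih =>
    have h1 : ∑' w : W F (n + 1), S.WP F (n + 1) w ^ s
        = ∑' (a : F) (b : W F n), ENNReal.ofReal (S.r a) ^ s * S.WP F n b ^ s := by
      rw [← ENNReal.tsum_prod (f := fun (a : F) (b : W F n) =>
        ENNReal.ofReal (S.r a) ^ s * S.WP F n b ^ s)]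
      exact tsum_congr fun w : F × W F n => ENNReal.mul_rpow_of_nonneg _ _ hs
    rw [h1]
    simp_rw [ENNReal.tsum_mul_left]
    rw [ENNReal.tsum_mul_right]
    exact (mul_le_mul' h ih).trans (by simp)

lemma exists_word {F : Set E} {ω : ℕ → E} (h : ∀ n, ω n ∈ F) (n : ℕ) :
    ∃ w : W F n, S.Wc F n w = comp S.φ ω n := by
  induction n with
  | zero => exact ⟨(), rfl⟩
  | succ n ih =>
    obtain ⟨w, hw⟩ := ih
    refine ⟨(⟨ω n, h n⟩, w), ?_⟩
    show S.Wc F n w ∘ S.φ (ω n) = _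
    rw [hw]
    rfl

lemma edist_Wc (F : Set E) (n : ℕ) (w : W F n) (x y : ℝ) :
    edist (S.Wc F n w x) (S.Wc F n w y) = S.WP F n w * edist x y := by
  induction n generalizing x y with
  | zero => simp [WP, Wc]
  | succ n ih =>
    show edist (S.Wc F n w.2 (S.φ w.1 x)) (S.Wc F n w.2 (S.φ w.1 y)) =
      ENNReal.ofReal (S.r w.1) * S.WP F n w.2 * edist x y
    rw [ih]
    have : edist (S.φ w.1 x) (S.φ w.1 y) = ENNReal.ofReal (S.r w.1) * edist x y := by
      rw [edist_dist, edist_dist, Real.dist_eq, Real.dist_eq, ← ENNReal.ofReal_mul (S.r_pos _).le]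
      congr 1
      have e : S.φ w.1 x - S.φ w.1 y = S.r w.1 * (x - y) := by
        unfold φ
        ring
      rw [e, abs_mul, abs_of_pos (S.r_pos _)]
    rw [this]
    ring

theorem dimH_J_le [Countable E] (F : Set E) {s : ℝ} (hs : 0 < s)
    (h : ∑' e : F, ENNReal.ofReal (S.r e) ^ s ≤ 1) : dimH (S.J F) ≤ ENNReal.ofReal s := by
  have hdiam : ∀ n (w : W F n), Metric.ediam (S.Wc F n w '' Icc 0 1) ≤ S.WP F n w := by
    intro n w
    apply Metric.ediam_le
    rintro _ ⟨x, hx, rfl⟩ _ ⟨y, hy, rfl⟩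
    rw [edist_Wc]
    calc S.WP F n w * edist x y ≤ S.WP F n w * 1 := by
          gcongr
          rw [edist_dist, Real.dist_eq, ← ENNReal.ofReal_one]
          apply ENNReal.ofReal_le_ofReal
          rw [abs_le]
          constructor <;> linarith [hx.1, hx.2, hy.1, hy.2]
      _ = _ := mul_one _
  have h14 : ENNReal.ofReal (1 / 4) < 1 := by
    rw [← ENNReal.ofReal_one]
    exact (ENNReal.ofReal_lt_ofReal_iff (by norm_num)).2 (by norm_num)
  have h1 := hausdorffMeasure_le_liminf_tsum (ι := W F) s (S.J F) (l := atTop)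
    (fun m => ENNReal.ofReal (1 / 4) ^ m) (ENNReal.tendsto_pow_atTop_nhds_zero_of_lt_one h14)
    (fun m w => S.Wc F m w '' Icc 0 1)
    (Eventually.of_forall fun m w => (hdiam m w).trans (S.WP_le F m w))
    (Eventually.of_forall fun m z hz => by
      obtain ⟨ω, hω, hz⟩ := hz
      obtain ⟨w, hw⟩ := S.exists_word hω m
      rw [mem_iUnion]
      exact ⟨w, by rw [hw]; exact hz m⟩)
  have h2 : liminf (fun m => ∑' w : W F m, Metric.ediam (S.Wc F m w '' Icc 0 1) ^ s) atTop ≤ 1 := by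
    have h3 : liminf (fun _ : ℕ => (1 : ℝ≥0∞)) atTop = 1 := by simp
    rw [← h3]
    refine liminf_le_liminf (Eventually.of_forall fun m => ?_)
    refine (ENNReal.tsum_le_tsum fun w => ?_).trans (S.sum_WP F hs.le h m)
    exact ENNReal.rpow_le_rpow (hdiam m w) hs.le
  have h4 : μH[((s.toNNReal : ℝ≥0) : ℝ)] (S.J F) ≠ ⊤ := by
    rw [Real.coe_toNNReal _ hs.le]
    exact ne_top_of_le_ne_top ENNReal.one_ne_top (h1.trans h2)
  exact dimH_le_of_hausdorffMeasure_ne_top h4

/-! ### lower bound -/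

theorem le_dimH_J (F : Set E) {s : ℝ} (hs : 0 < s)
    (h : 1 < ∑' e : F, ENNReal.ofReal (S.r e) ^ s) : ENNReal.ofReal s ≤ dimH (S.J F) := by
  classical
  rw [ENNReal.tsum_eq_iSup_sum, lt_iSup_iff] at h
  obtain ⟨T, hT⟩ := h
  have hne : T.Nonempty := by
    rcases T.eq_empty_or_nonempty with h0 | h0
    · rw [h0] at hT
      simp at hT
    · exact h0
  set m := T.card with hm
  have hm0 : 0 < m := Finset.card_pos.2 hne
  set e : ℕ → E := fun i => if hi : i < m then ((T.equivFin.symm ⟨i, hi⟩ : T) : F) else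
    ((T.equivFin.symm ⟨0, hm0⟩ : T) : F) with he
  have heF : ∀ i, e i ∈ F := by
    intro i
    simp only [he]
    split_ifs
    · exact Subtype.coe_prop _
    · exact Subtype.coe_prop _
  have heinj : ∀ i < m, ∀ j < m, e i = e j → i = j := by
    intro i hi j hj hij
    simp only [he, hi, hj, dif_pos] at hij
    have h1 := T.equivFin.symm.injective (Subtype.ext (Subtype.ext hij))
    simpa using h1
  -- the sum
  set Sg : ℝ := ∑ i ∈ Finset.range m, S.r (e i) ^ s with hSg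
  have hSg1 : 1 < Sg := by
    have h1 : (∑ a ∈ T, ENNReal.ofReal (S.r a) ^ s) = ENNReal.ofReal Sg := by
      rw [hSg, ENNReal.ofReal_sum_of_nonneg fun i _ => Real.rpow_nonneg (S.r_pos _).le _,
        ← Finset.sum_coe_sort T, ← T.equivFin.symm.sum_comp, Finset.sum_range]
      apply Finset.sum_congr rfl
      intro i _
      have : e i = ((T.equivFin.symm i : T) : F) := dif_pos (show (i : ℕ) < m from i.2)
      rw [this, ENNReal.ofReal_rpow_of_nonneg (S.r_pos _).le hs.le]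
    rw [h1, ← ENNReal.ofReal_one] at hT
    exact (ENNReal.ofReal_lt_ofReal_iff_of_nonneg zero_le_one).1 hT
  -- the gap
  obtain ⟨δ, hδ, hgap⟩ : ∃ δ : ℝ, 0 < δ ∧ ∀ i < m, ∀ j < m, i ≠ j → ∀ u ∈ Icc (0 : ℝ) 1,
      ∀ v ∈ Icc (0 : ℝ) 1, δ ≤ |S.φ (e i) u - S.φ (e j) v| := by
    have hpair : ∀ a a' : E, a ≠ a' → ∃ δ : ℝ, 0 < δ ∧ ∀ u ∈ Icc (0 : ℝ) 1, ∀ v ∈ Icc (0 : ℝ) 1,
        δ ≤ |S.φ a u - S.φ a' v| := by
      intro a a' haa
      rcases S.disj a a' haa with h1 | h1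
      · refine ⟨S.b a' - (S.b a + S.r a), by linarith, fun u hu v hv => ?_⟩
        rw [abs_sub_comm]
        refine le_trans ?_ (le_abs_self _)
        unfold φ
        nlinarith [mul_le_mul_of_nonneg_left hu.2 (S.r_pos a).le, mul_nonneg (S.r_pos a').le hv.1]
      · refine ⟨S.b a - (S.b a' + S.r a'), by linarith, fun u hu v hv => ?_⟩
        refine le_trans ?_ (le_abs_self _)
        unfold φ
        nlinarith [mul_le_mul_of_nonneg_left hv.2 (S.r_pos a').le, mul_nonneg (S.r_pos a).le hu.1]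
    have hfin : ∀ p : Fin m × Fin m, ∃ δ : ℝ, 0 < δ ∧ (p.1 ≠ p.2 → ∀ u ∈ Icc (0 : ℝ) 1,
        ∀ v ∈ Icc (0 : ℝ) 1, δ ≤ |S.φ (e p.1) u - S.φ (e p.2) v|) := by
      rintro ⟨i, j⟩
      by_cases hij : i = j
      · exact ⟨1, one_pos, fun h => absurd hij h⟩
      · obtain ⟨δ, h1, h2⟩ := hpair (e i) (e j) fun h => hij (Fin.ext (heinj i i.2 j j.2 h))
        exact ⟨δ, h1, fun _ => h2⟩
    choose D hD1 hD2 using hfin
    have : Nonempty (Fin m × Fin m) := ⟨(⟨0, hm0⟩, ⟨0, hm0⟩)⟩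
    obtain ⟨p0, hp0⟩ := Finite.exists_min D
    refine ⟨D p0, hD1 _, fun i hi j hj hij u hu v hv => (hp0 (⟨i, hi⟩, ⟨j, hj⟩)).trans ?_⟩
    exact hD2 (⟨i, hi⟩, ⟨j, hj⟩) (fun h => hij (by simpa using h)) u hu v hv
  set w : List ℕ → ℕ → ℝ := fun _ i => S.r (e i) ^ s / Sg with hw
  set K : List ℕ → ℕ := fun _ => m with hK
  have hpos : ∀ h i, i < K h → 0 < w h i := fun h i _ => by
    simp only [hw]
    have := Real.rpow_pos_of_pos (S.r_pos (e i)) s
    positivity
  have hsum : ∀ h, PS w h (K h) = 1 := fun h => by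
    simp only [PS, hw, hK]
    rw [← Finset.sum_div]
    exact div_self (by positivity)
  have hwt : ∀ a n, wt w a n ≤ S.R (fun j => e (a j)) n ^ s := by
    intro a n
    induction n with
    | zero => simp [wt, R]
    | succ n ih =>
      rw [wt_succ, R_succ, Real.mul_rpow (S.R_pos _ _).le (S.r_pos _).le]
      have h1 := Real.rpow_pos_of_pos (S.r_pos (e (a n))) s
      refine mul_le_mul ih ?_ ?_ (by have := S.R_pos (fun j => e (a j)) n; positivity)
      · simp only [hw]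
        exact div_le_self h1.le hSg1.le
      · simp only [hw]; positivity
  have hwt0 : ∀ a n, 0 ≤ wt w a n := fun a n => Finset.prod_nonneg fun j _ => by
    simp only [hw]
    have := Real.rpow_pos_of_pos (S.r_pos (e (a j))) s
    positivity
  have key := dim_ge (w := w) (K := K) hpos hsum (X := ℝ) (fun a => S.pt fun j => e (a j))
    ⟨s, hs.le⟩ (by exact_mod_cast hs) ⟨(1 / δ) ^ s, by positivity⟩ ?_ ?_
  · rw [ENNReal.ofReal_eq_coe_nnreal hs.le]
    refine key.trans (dimH_mono ?_)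
    rintro _ ⟨a, _, rfl⟩
    exact S.pt_mem_J fun n => heF _
  · intro a ha
    have h1 : Tendsto (fun n : ℕ => (((1 : ℝ) / 4) ^ s) ^ n) atTop (𝓝 0) :=
      tendsto_pow_atTop_nhds_zero_of_lt_one (by positivity)
        (Real.rpow_lt_one (by norm_num) (by norm_num) hs)
    refine squeeze_zero (fun n => hwt0 a n) (fun n => (hwt a n).trans ?_) h1
    rw [← Real.rpow_natCast, ← Real.rpow_mul (by norm_num), mul_comm, Real.rpow_mul (by norm_num),
      Real.rpow_natCast]
    exact Real.rpow_le_rpow (S.R_pos _ _).le (S.R_le _ _) hs.le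
  · intro a a' ha ha' n hn hne
    set ω : ℕ → E := fun j => e (a j)
    set ω' : ℕ → E := fun j => e (a' j)
    have hagree : ∀ j < n, ω j = ω' j := fun j hj => by
      show e (a j) = e (a' j)
      rw [hn j hj]
    have h1 : S.pt ω - S.pt ω' = S.R ω n * (S.φ (e (a n)) (S.pt fun j => ω (n + 1 + j)) -
        S.φ (e (a' n)) (S.pt fun j => ω' (n + 1 + j))) := by
      rw [S.pt_eq ω (n + 1), S.pt_eq ω' (n + 1)]
      show comp S.φ ω n (S.φ (ω n) _) - comp S.φ ω' n (S.φ (ω' n) _) = _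
      rw [← S.comp_congr hagree, comp_sub]
    have h2 := hgap (a n) (ha n) (a' n) (ha' n) hne (S.pt fun j => ω (n + 1 + j)) (S.pt_mem _)
      (S.pt fun j => ω' (n + 1 + j)) (S.pt_mem _)
    have h3 : S.R ω n ≤ 1 / δ * dist (S.pt ω) (S.pt ω') := by
      rw [Real.dist_eq, h1, abs_mul, abs_of_pos (S.R_pos ω n), div_mul_eq_mul_div, one_mul,
        le_div_iff₀ hδ]
      exact mul_le_mul_of_nonneg_left h2 (S.R_pos ω n).le
    calc wt w a n ≤ S.R ω n ^ s := hwt a n
      _ ≤ (1 / δ * dist (S.pt ω) (S.pt ω')) ^ s := Real.rpow_le_rpow (S.R_pos _ _).le h3 hs.le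
      _ = (1 / δ) ^ s * dist (S.pt ω) (S.pt ω') ^ s := Real.mul_rpow (by positivity) dist_nonneg

end Sys

end Pool.Agent.Q187.Sim
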