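import Mathlib
import Pool.Agent.Q187.Sim.Basic

set_option autoImplicit false

/-!
# The block system

Block `k` consists of `N k` maps of ratio `N k ^ (-2)`, `N k = 2 ^ ((k + 2)!)`.
-/

open Filter Topology Set MeasureTheory MeasureTheory.Measure
open scoped ENNReal NNReal

namespace Pool.Agent.Q187.Sim

/-- exponents -/
def ex (k : ℕ) : ℕ := (k + 2).factorial

/-- sizes of blocks -/
def NN (k : ℕ) : ℕ := 2 ^ ex k

/-- the alphabet -/
abbrev Ed : Type := (k : ℕ) × Fin (NN k)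

lemma ex_succ (k : ℕ) : ex (k + 1) = (k + 3) * ex k := by
  unfold ex
  exact Nat.factorial_succ (k + 2)

lemma ex_ge (k : ℕ) : k + 2 ≤ ex k := Nat.self_le_factorial _

lemma ex_pos (k : ℕ) : 0 < ex k := Nat.factorial_pos _

lemma ex_add (k i : ℕ) : ex k + i ≤ ex (k + i) := by
  induction i with
  | zero => exact le_refl _
  | succ i ih =>
    rw [← add_assoc, ← add_assoc, ex_succ]
    have := ex_pos (k + i)
    nlinarith

lemma NN_gt (k : ℕ) : (2 : ℝ) ^ (k + 1) < NN k := by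
  unfold NN
  push_cast
  exact pow_lt_pow_right₀ (by norm_num) (by have := ex_ge k; omega)

lemma NN_ge (k : ℕ) : (4 : ℝ) ≤ NN k := by
  unfold NN
  push_cast
  calc (4 : ℝ) = 2 ^ 2 := by norm_num
    _ ≤ 2 ^ ex k := pow_le_pow_right₀ (by norm_num) (by have := ex_ge k; omega)

lemma NN_inv (k : ℕ) : 1 / (NN k : ℝ) < (1 / 2) ^ (k + 1) := by
  have h1 := NN_gt k
  have h2 : (0 : ℝ) < 2 ^ (k + 1) := by positivity
  rw [one_div_pow]
  exact one_div_lt_one_div_of_lt h2 h1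

/-- position -/
noncomputable def bb (e : Ed) : ℝ := (1 / 2) ^ (e.1 + 1) * (1 + (e.2 : ℕ) / (NN e.1 : ℝ))

/-- ratio -/
noncomputable def rr (e : Ed) : ℝ := 1 / (NN e.1 : ℝ) ^ 2

lemma bb_ge (e : Ed) : (1 / 2) ^ (e.1 + 1) ≤ bb e := by
  unfold bb
  have h1 : (0 : ℝ) ≤ (e.2 : ℕ) / (NN e.1 : ℝ) := by positivity
  have h2 : (0 : ℝ) < (1 / 2) ^ (e.1 + 1) := by positivity
  nlinarith

lemma rr_lt (e : Ed) : rr e < (1 / 2) ^ (e.1 + 1) / NN e.1 := by
  have h1 := NN_inv e.1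
  have h2 := NN_ge e.1
  have h3 : rr e = 1 / (NN e.1 : ℝ) / NN e.1 := by
    unfold rr
    rw [div_div, pow_two]
  rw [h3]
  exact div_lt_div_of_pos_right h1 (by linarith)

lemma bb_add_lt (e : Ed) : bb e + rr e < (1 / 2) ^ e.1 := by
  have h1 := rr_lt e
  have h2 := NN_ge e.1
  have h3 : ((e.2 : ℕ) : ℝ) + 1 ≤ NN e.1 := by exact_mod_cast e.2.2
  have h4 : (0 : ℝ) < (1 / 2) ^ (e.1 + 1) := by positivity
  have h5 : bb e + (1 / 2) ^ (e.1 + 1) / NN e.1 ≤ (1 / 2) ^ e.1 := by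
    unfold bb
    have h6 : (((e.2 : ℕ) : ℝ) + 1) / NN e.1 ≤ 1 := (div_le_one (by linarith)).2 h3
    have h7 : (1 / 2 : ℝ) ^ (e.1 + 1) * (1 + (e.2 : ℕ) / (NN e.1 : ℝ)) + (1 / 2) ^ (e.1 + 1) / NN e.1 =
        (1 / 2) ^ (e.1 + 1) * (1 + (((e.2 : ℕ) : ℝ) + 1) / NN e.1) := by
      field_simp
      ring
    rw [h7]
    calc (1 / 2 : ℝ) ^ (e.1 + 1) * (1 + (((e.2 : ℕ) : ℝ) + 1) / NN e.1) ≤
          (1 / 2 : ℝ) ^ (e.1 + 1) * (1 + 1) := by gcongr
      _ = (1 / 2) ^ e.1 := by rw [pow_succ]; ring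
  linarith

lemma sep1 {p q : Ed} (h : p.1 < q.1) : bb q + rr q < bb p := by
  calc bb q + rr q < (1 / 2) ^ q.1 := bb_add_lt q
    _ ≤ (1 / 2) ^ (p.1 + 1) := pow_le_pow_of_le_one (by norm_num) (by norm_num) h
    _ ≤ bb p := bb_ge p

lemma sep2 {k : ℕ} {i j : Fin (NN k)} (h : i < j) : bb ⟨k, i⟩ + rr ⟨k, i⟩ < bb ⟨k, j⟩ := by
  have h1 := rr_lt ⟨k, i⟩
  have h2 := NN_ge k
  have h3 : ((i : ℕ) : ℝ) + 1 ≤ (j : ℕ) := by exact_mod_cast h
  have h4 : (0 : ℝ) < (1 / 2) ^ (k + 1) := by positivity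
  unfold bb
  simp only at h1 ⊢
  have h5 : ((1 / 2 : ℝ) ^ (k + 1) * (1 + (i : ℕ) / (NN k : ℝ))) + (1 / 2) ^ (k + 1) / NN k =
      (1 / 2) ^ (k + 1) * (1 + (((i : ℕ) : ℝ) + 1) / NN k) := by
    field_simp
    ring
  have h6 : (1 / 2 : ℝ) ^ (k + 1) * (1 + (((i : ℕ) : ℝ) + 1) / NN k) ≤
      (1 / 2) ^ (k + 1) * (1 + ((j : ℕ) : ℝ) / NN k) := by gcongr
  linarith

/-- the block system -/
noncomputable def BS : Sys Ed where
  b := bb
  r := rr
  r_pos e := by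
    have := NN_ge e.1
    unfold rr
    positivity
  r_le e := by
    have h := NN_ge e.1
    unfold rr
    rw [div_le_div_iff₀ (by positivity) (by norm_num)]
    nlinarith
  b_nonneg e := le_trans (by positivity) (bb_ge e)
  b_add e := (bb_add_lt e).le.trans (pow_le_one₀ (by norm_num) (by norm_num))
  disj := by
    rintro ⟨k, i⟩ ⟨k', j⟩ hne
    rcases lt_trichotomy k k' with h | h | h
    · right; exact sep1 h
    · subst h
      have hij : i ≠ j := fun h => hne (by rw [h])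
      rcases lt_or_gt_of_ne hij with h | h
      · left; exact sep2 h
      · right; exact sep2 h
    · left; exact sep1 h

/-! ### the partition function -/

/-- number of maps of `F` in block `k` -/
noncomputable def cnt (F : Set Ed) (k : ℕ) : ℕ := by
  classical exact (Finset.univ.filter fun i : Fin (NN k) => (⟨k, i⟩ : Ed) ∈ F).card

lemma cnt_le (F : Set Ed) (k : ℕ) : cnt F k ≤ NN k := by
  unfold cnt
  exact (Finset.card_le_univ _).trans (by simp)

/-- the contribution of one map -/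
noncomputable def q (k : ℕ) (t : ℝ) : ℝ≥0∞ := ENNReal.ofReal ((NN k : ℝ) ^ (-(2 * t)))

/-- the partition function -/
noncomputable def Z (m : ℕ → ℕ) (t : ℝ) : ℝ≥0∞ := ∑' k, (m k : ℝ≥0∞) * q k t

lemma q_eq (e : Ed) {t : ℝ} (ht : 0 < t) : ENNReal.ofReal (BS.r e) ^ t = q e.1 t := by
  have h := NN_ge e.1
  rw [ENNReal.ofReal_rpow_of_nonneg (BS.r_pos e).le ht.le]
  unfold q
  congr 1
  show (1 / (NN e.1 : ℝ) ^ 2) ^ t = _
  rw [one_div, ← Real.rpow_natCast, ← Real.rpow_neg (by linarith), ← Real.rpow_mul (by linarith)]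
  push_cast
  ring_nf

lemma tsum_eq (F : Set Ed) {t : ℝ} (ht : 0 < t) :
    ∑' e : F, ENNReal.ofReal (BS.r e) ^ t = Z (cnt F) t := by
  classical
  rw [tsum_subtype F (fun e => ENNReal.ofReal (BS.r e) ^ t), ENNReal.tsum_sigma']
  unfold Z
  refine tsum_congr fun k => ?_
  rw [tsum_fintype]
  unfold cnt
  rw [← nsmul_eq_mul, ← Finset.sum_const, Finset.sum_filter]
  refine Finset.sum_congr rfl fun i _ => ?_
  rw [Set.indicator_apply]
  split_ifs
  · exact q_eq _ ht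
  · rfl

/-- the dimension of the limit set -/
noncomputable def dd (F : Set Ed) : ℝ := (dimH (BS.J F)).toReal

lemma dimH_ne_top (F : Set Ed) : dimH (BS.J F) ≠ ⊤ := by
  have h : dimH (BS.J F) ≤ 1 := (dimH_mono (subset_univ _)).trans (by simp [Real.dimH_univ])
  exact ne_top_of_le_ne_top ENNReal.one_ne_top h

lemma dd_le {F : Set Ed} {t : ℝ} (ht : 0 < t) (h : Z (cnt F) t ≤ 1) : dd F ≤ t := by
  rw [← tsum_eq F ht] at h
  have h1 := BS.dimH_J_le F ht h
  unfold dd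
  calc (dimH (BS.J F)).toReal ≤ (ENNReal.ofReal t).toReal :=
        ENNReal.toReal_mono ENNReal.ofReal_ne_top h1
    _ = t := ENNReal.toReal_ofReal ht.le

lemma le_dd {F : Set Ed} {t : ℝ} (ht : 0 < t) (h : 1 < Z (cnt F) t) : t ≤ dd F := by
  rw [← tsum_eq F ht] at h
  have h1 := BS.le_dimH_J F ht h
  unfold dd
  calc t = (ENNReal.ofReal t).toReal := (ENNReal.toReal_ofReal ht.le).symm
    _ ≤ (dimH (BS.J F)).toReal := ENNReal.toReal_mono (dimH_ne_top F) h1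

lemma dd_nonneg (F : Set Ed) : 0 ≤ dd F := ENNReal.toReal_nonneg

lemma q_ratio {t t' : ℝ} (h : t ≤ t') (k : ℕ) :
    q k t' * ENNReal.ofReal (16 ^ (t' - t)) ≤ q k t := by
  have h1 := NN_ge k
  unfold q
  rw [← ENNReal.ofReal_mul (by positivity)]
  apply ENNReal.ofReal_le_ofReal
  have h2 : (16 : ℝ) ^ (t' - t) ≤ (NN k : ℝ) ^ (2 * (t' - t)) := by
    rw [Real.rpow_mul (by linarith)]
    apply Real.rpow_le_rpow (by norm_num) _ (by linarith)
    rw [Real.rpow_two]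
    nlinarith
  calc (NN k : ℝ) ^ (-(2 * t')) * 16 ^ (t' - t) ≤ (NN k : ℝ) ^ (-(2 * t')) * (NN k : ℝ) ^ (2 * (t' - t)) :=
        mul_le_mul_of_nonneg_left h2 (by positivity)
    _ = (NN k : ℝ) ^ (-(2 * t)) := by
        rw [← Real.rpow_add (by linarith)]
        congr 1
        ring

end Pool.Agent.Q187.Sim
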