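import Mathlib
import Pool.Agent.Q187.Sim.Basic

set_option autoImplicit false

/-!
# Similarity systems are conformal iterated function systems
-/

open Filter Topology Set

namespace Pool.Agent.Q187.Sim

variable {E : Type} (S : Sys E)

lemma hasDerivAt_φ (e : E) (x : ℝ) : HasDerivAt (S.φ e) (S.r e) x := by
  have h := ((hasDerivAt_id x).const_mul (S.r e)).const_add (S.b e)
  rw [mul_one] at h
  exact h

lemma hasDerivAt_comp (ω : ℕ → E) (n : ℕ) (x : ℝ) :
    HasDerivAt (comp S.φ ω n) (S.R ω n) x := by
  induction n generalizing x with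
  | zero => simpa [Sys.R, comp] using hasDerivAt_id x
  | succ n ih =>
    rw [S.R_succ]
    exact (ih _).comp x (hasDerivAt_φ S (ω n) x)

/-- the conformal iterated function system -/
noncomputable def Sys.toCIFS : CIFS E where
  X := Icc 0 1
  φ := S.φ
  V := Ioo (-1) 2
  isCompact := isCompact_Icc
  isConnected := isConnected_Icc zero_le_one
  closure_interior := by rw [interior_Icc, closure_Ioo zero_ne_one]
  mapsTo e x hx := S.φ_mem e hx
  contraction := by
    refine ⟨1 / 4, by norm_num, fun e x _ y _ => ?_⟩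
    have h : S.φ e x - S.φ e y = S.r e * (x - y) := by
      unfold Sys.φ
      ring
    rw [h, abs_mul, abs_of_pos (S.r_pos e)]
    exact mul_le_mul_of_nonneg_right (S.r_le e) (abs_nonneg _)
  open_set := by
    intro a b hab
    rw [interior_Icc, Set.disjoint_left]
    rintro _ ⟨x, hx, rfl⟩ ⟨y, hy, hxy⟩
    unfold Sys.φ at hxy
    have h1 := mul_le_mul_of_nonneg_left hx.2.le (S.r_pos a).le
    have h2 := mul_le_mul_of_nonneg_left hy.2.le (S.r_pos b).le
    have h3 := mul_pos (S.r_pos a) hx.1
    have h4 := mul_pos (S.r_pos b) hy.1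
    rcases S.disj a b hab with h | h <;> linarith
  isOpen_V := isOpen_Ioo
  isConnected_V := isConnected_Ioo (by norm_num)
  subset_V := fun x hx => ⟨by linarith [hx.1], by linarith [hx.2]⟩
  mapsTo_V := by
    intro e x hx
    have h1 := S.r_pos e
    have h2 := S.r_le e
    have h3 := S.b_nonneg e
    have h4 := S.b_add e
    have h5 := mul_lt_mul_of_pos_left hx.1 h1
    have h6 := mul_lt_mul_of_pos_left hx.2 h1
    unfold Sys.φ
    constructor <;> linarith
  injOn_V := by
    intro e x _ y _ hxy
    unfold Sys.φ at hxy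
    have := S.r_pos e
    exact mul_left_cancel₀ this.ne' (by linarith)
  deriv_V := by
    intro e x _
    refine ⟨(hasDerivAt_φ S e x).differentiableAt, ?_⟩
    rw [(hasDerivAt_φ S e x).deriv]
    exact (S.r_pos e).ne'
  holder_V := by
    intro e
    refine ⟨1, 0, one_pos, fun x _ y _ => ?_⟩
    rw [(hasDerivAt_φ S e x).deriv, (hasDerivAt_φ S e y).deriv]
    simp
  cone := by
    refine ⟨1, one_pos, fun x hx => ?_⟩
    rw [frontier_Icc zero_le_one] at hx
    rw [interior_Icc]
    rcases hx with rfl | hx
    · left; norm_num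
    · rw [mem_singleton_iff] at hx
      right; rw [hx]; norm_num
  distortion := by
    refine ⟨1, le_refl _, fun ω n x _ y _ => ?_⟩
    rw [(hasDerivAt_comp S ω n x).deriv, (hasDerivAt_comp S ω n y).deriv, one_mul]

lemma Sys.toCIFS_J (F : Set E) : S.toCIFS.J F = S.J F := rfl

end Pool.Agent.Q187.Sim
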