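import Mathlib
import Pool.Agent.Q187.Sim.Blocks
import Pool.Agent.Q187.Sim.CIFS

set_option autoImplicit false

/-!
# The dimension spectrum of the block system
-/

open Filter Topology Set MeasureTheory MeasureTheory.Measure
open scoped ENNReal NNReal

namespace Pool.Agent.Q187.Sim

/-- the dimension spectrum -/
def Spec : Set ℝ := {t | ∃ F : Set Ed, F.Nonempty ∧ t = dd F}

/-! ### the lower part of the spectrum -/

section greedy

variable (s : ℝ)

/-- the terms -/
noncomputable def ak (k : ℕ) : ℝ := (NN k : ℝ) ^ (-(2 * s))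

/-- the remainders -/
noncomputable def rho : ℕ → ℝ
  | 0 => 1
  | k + 1 => rho k - ⌊rho k / ak s k⌋₊ * ak s k

/-- the greedy digits -/
noncomputable def mk (k : ℕ) : ℕ := ⌊rho s k / ak s k⌋₊

lemma ak_pos (k : ℕ) : 0 < ak s k := by
  have := NN_ge k
  unfold ak
  positivity

lemma rho_nonneg (k : ℕ) : 0 ≤ rho s k := by
  cases k with
  | zero => simp [rho]
  | succ k =>
    show 0 ≤ rho s k - ⌊rho s k / ak s k⌋₊ * ak s k
    have hp := ak_pos s k
    have h0 : 0 ≤ rho s k := rho_nonneg k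
    have h1 := Nat.floor_le (div_nonneg h0 hp.le)
    rw [le_div_iff₀ hp] at h1
    linarith

lemma rho_lt (k : ℕ) : rho s (k + 1) < ak s k := by
  show rho s k - ⌊rho s k / ak s k⌋₊ * ak s k < ak s k
  have hp := ak_pos s k
  have h1 := Nat.lt_floor_add_one (rho s k / ak s k)
  rw [div_lt_iff₀ hp] at h1
  nlinarith

lemma rho_le_one (k : ℕ) : rho s k ≤ 1 := by
  induction k with
  | zero => simp [rho]
  | succ k ih =>
    have hp := ak_pos s k
    show rho s k - ⌊rho s k / ak s k⌋₊ * ak s k ≤ 1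
    have : 0 ≤ (⌊rho s k / ak s k⌋₊ : ℝ) * ak s k := by positivity
    linarith

lemma sum_mk (k : ℕ) : ∑ j ∈ Finset.range k, (mk s j : ℝ) * ak s j = 1 - rho s k := by
  induction k with
  | zero => simp [rho]
  | succ k ih =>
    rw [Finset.sum_range_succ, ih]
    show _ = 1 - (rho s k - ⌊rho s k / ak s k⌋₊ * ak s k)
    unfold mk
    ring

variable {s}

lemma mk_le (hs0 : 0 < s) (hs : s ≤ 1 / 2) (k : ℕ) : mk s k ≤ NN k := by
  have hN := NN_ge k
  have hp := ak_pos s k
  have h1 : (mk s k : ℝ) ≤ rho s k / ak s k := Nat.floor_le (div_nonneg (rho_nonneg s k) hp.le)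
  have h2 : rho s k / ak s k ≤ (NN k : ℝ) ^ (2 * s) := by
    rw [div_le_iff₀ hp]
    unfold ak
    rw [← Real.rpow_add (by linarith), add_neg_cancel, Real.rpow_zero]
    exact rho_le_one s k
  have h3 : (NN k : ℝ) ^ (2 * s) ≤ (NN k : ℝ) ^ (1 : ℝ) :=
    Real.rpow_le_rpow_of_exponent_le (by linarith) (by linarith)
  rw [Real.rpow_one] at h3
  exact_mod_cast h1.trans (h2.trans h3)

lemma ak_tendsto (hs0 : 0 < s) : Tendsto (ak s) atTop (𝓝 0) := by
  have h1 : Tendsto (fun k : ℕ => ((2 : ℝ) ^ (-(2 * s))) ^ k) atTop (𝓝 0) :=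
    tendsto_pow_atTop_nhds_zero_of_lt_one (by positivity)
      (Real.rpow_lt_one_of_one_lt_of_neg (by norm_num) (by linarith))
  refine squeeze_zero (fun k => (ak_pos s k).le) (fun k => ?_) h1
  unfold ak
  have h2 : (2 : ℝ) ^ k ≤ NN k := by
    refine le_trans ?_ (NN_gt k).le
    exact pow_le_pow_right₀ (by norm_num) (by omega)
  have e : ((2 : ℝ) ^ (-(2 * s))) ^ k = ((2 : ℝ) ^ k) ^ (-(2 * s)) := by
    rw [← Real.rpow_natCast, ← Real.rpow_natCast, ← Real.rpow_mul (by norm_num),
      ← Real.rpow_mul (by norm_num), mul_comm]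
  rw [e]
  exact Real.rpow_le_rpow_of_nonpos (by positivity) h2 (by linarith)

lemma hasSum_mk (hs0 : 0 < s) : HasSum (fun k => (mk s k : ℝ) * ak s k) 1 := by
  rw [hasSum_iff_tendsto_nat_of_nonneg fun k => by have := ak_pos s k; positivity]
  simp only [sum_mk]
  have h1 : Tendsto (fun k => rho s (k + 1)) atTop (𝓝 0) :=
    squeeze_zero (fun k => rho_nonneg s _) (fun k => (rho_lt s k).le) (ak_tendsto hs0)
  have h2 := (tendsto_add_atTop_iff_nat 1).1 h1
  simpa using h2.const_sub 1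

lemma Z_mk (hs0 : 0 < s) : Z (mk s) s = 1 := by
  unfold Z
  have h1 : ∀ k, (mk s k : ℝ≥0∞) * q k s = ENNReal.ofReal ((mk s k : ℝ) * ak s k) := by
    intro k
    rw [ENNReal.ofReal_mul (by positivity), ENNReal.ofReal_natCast]
    rfl
  simp only [h1]
  rw [← ENNReal.ofReal_tsum_of_nonneg (fun k => by have := ak_pos s k; positivity)
    (hasSum_mk hs0).summable, (hasSum_mk hs0).tsum_eq, ENNReal.ofReal_one]

end greedy

/-- a subsystem with given counts -/
def Fm (m : ℕ → ℕ) : Set Ed := {e | (e.2 : ℕ) < m e.1}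

lemma cnt_Fm {m : ℕ → ℕ} (hm : ∀ k, m k ≤ NN k) : cnt (Fm m) = m := by
  classical
  funext k
  unfold cnt
  have h1 : (Finset.univ.filter fun i : Fin (NN k) => (⟨k, i⟩ : Ed) ∈ Fm m).card =
      (Finset.range (m k)).card := by
    refine Finset.card_bij (fun i _ => (i : ℕ)) ?_ ?_ ?_
    · intro i hi
      exact Finset.mem_range.2 (Finset.mem_filter.1 hi).2
    · intro i _ j _ h
      exact Fin.ext h
    · intro i hi
      have := Finset.mem_range.1 hi
      exact ⟨⟨i, lt_of_lt_of_le this (hm k)⟩, Finset.mem_filter.2 ⟨Finset.mem_univ _, this⟩, rfl⟩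
  rw [Finset.card_range] at h1
  convert h1

lemma Z_ratio (m : ℕ → ℕ) {t t' : ℝ} (h : t ≤ t') :
    Z m t' * ENNReal.ofReal (16 ^ (t' - t)) ≤ Z m t := by
  unfold Z
  rw [← ENNReal.tsum_mul_right]
  refine ENNReal.tsum_le_tsum fun k => ?_
  rw [mul_assoc]
  exact mul_le_mul_right (q_ratio h k) _

theorem mem_Spec_of_le {s : ℝ} (hs0 : 0 < s) (hs : s ≤ 1 / 2) : s ∈ Spec := by
  have hc := cnt_Fm (mk_le hs0 hs)
  refine ⟨Fm (mk s), ?_, ?_⟩
  · by_contra hne
    rw [Set.not_nonempty_iff_eq_empty] at hne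
    have h0 : ∀ k, mk s k = 0 := by
      intro k
      rw [← hc, hne]
      unfold cnt
      simp
    have h1 := Z_mk hs0
    unfold Z at h1
    simp [h0] at h1
  · apply le_antisymm
    · refine le_of_forall_lt fun t ht => ?_
      rcases le_or_gt t 0 with h0 | h0
      · obtain ⟨t', h1, h2⟩ := exists_between hs0
        refine lt_of_le_of_lt h0 (lt_of_lt_of_le h1 (le_dd h1 ?_))
        rw [hc]
        have h3 := Z_ratio (mk s) h2.le
        rw [Z_mk hs0, one_mul] at h3
        refine lt_of_lt_of_le ?_ h3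
        rw [← ENNReal.ofReal_one]
        exact (ENNReal.ofReal_lt_ofReal_iff_of_nonneg zero_le_one).2
          (Real.one_lt_rpow (by norm_num) (by linarith))
      · obtain ⟨t', h1, h2⟩ := exists_between ht
        refine lt_of_lt_of_le h1 (le_dd (h0.trans h1) ?_)
        rw [hc]
        have h3 := Z_ratio (mk s) h2.le
        rw [Z_mk hs0, one_mul] at h3
        refine lt_of_lt_of_le ?_ h3
        rw [← ENNReal.ofReal_one]
        exact (ENNReal.ofReal_lt_ofReal_iff_of_nonneg zero_le_one).2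
          (Real.one_lt_rpow (by norm_num) (by linarith))
    · apply dd_le hs0
      rw [hc, Z_mk hs0]

end Pool.Agent.Q187.Sim
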