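import Mathlib
import Pool.Agent.Q187.Sim.Spec

set_option autoImplicit false

/-!
# The upper part of the dimension spectrum has dimension zero
-/

open Filter Topology Set MeasureTheory MeasureTheory.Measure
open scoped ENNReal NNReal

namespace Pool.Agent.Q187.Sim

/-- the base of the geometric bounds -/
noncomputable def th (δ : ℝ) : ℝ := 2 ^ (-(2 * δ))

lemma th_pos (δ : ℝ) : 0 < th δ := by unfold th; positivity

lemma th_lt {δ : ℝ} (hδ : 0 < δ) : th δ < 1 :=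
  Real.rpow_lt_one_of_one_lt_of_neg (by norm_num) (by linarith)

/-- bound of the tails -/
noncomputable def tau (δ : ℝ) (k : ℕ) : ℝ := th δ ^ ex k / (1 - th δ)

lemma tau_pos {δ : ℝ} (hδ : 0 < δ) (k : ℕ) : 0 < tau δ k := by
  have h1 := th_pos δ
  have h2 := th_lt hδ
  unfold tau
  exact div_pos (pow_pos h1 _) (by linarith)

lemma NN_q {δ t : ℝ} (ht : 1 / 2 + δ ≤ t) (k : ℕ) :
    (NN k : ℝ≥0∞) * q k t ≤ ENNReal.ofReal (th δ ^ ex k) := by
  unfold q
  rw [← ENNReal.ofReal_natCast, ← ENNReal.ofReal_mul (by positivity)]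
  apply ENNReal.ofReal_le_ofReal
  have h1 := NN_ge k
  calc (NN k : ℝ) * (NN k : ℝ) ^ (-(2 * t)) = (NN k : ℝ) ^ (1 - 2 * t) := by
        rw [sub_eq_add_neg, Real.rpow_add (by linarith), Real.rpow_one]
    _ ≤ (NN k : ℝ) ^ (-(2 * δ)) := Real.rpow_le_rpow_of_exponent_le (by linarith) (by linarith)
    _ = th δ ^ ex k := by
        unfold th NN
        push_cast
        rw [← Real.rpow_natCast, ← Real.rpow_natCast, ← Real.rpow_mul (by norm_num),
          ← Real.rpow_mul (by norm_num), mul_comm]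

lemma tail_le {δ t : ℝ} (hδ : 0 < δ) (ht : 1 / 2 + δ ≤ t) {m : ℕ → ℕ} (hm : ∀ k, m k ≤ NN k)
    (k : ℕ) : ∑' i, (m (i + k) : ℝ≥0∞) * q (i + k) t ≤ ENNReal.ofReal (tau δ k) := by
  have hp := th_pos δ
  have hl := th_lt hδ
  have h1 : ∀ i, (m (i + k) : ℝ≥0∞) * q (i + k) t ≤ ENNReal.ofReal (th δ ^ ex k * th δ ^ i) := by
    intro i
    calc (m (i + k) : ℝ≥0∞) * q (i + k) t ≤ (NN (i + k) : ℝ≥0∞) * q (i + k) t := by
          gcongr
          exact hm _
      _ ≤ ENNReal.ofReal (th δ ^ ex (i + k)) := NN_q ht _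
      _ ≤ _ := by
        apply ENNReal.ofReal_le_ofReal
        rw [← pow_add]
        apply pow_le_pow_of_le_one hp.le hl.le
        rw [add_comm i k]
        exact ex_add k i
  refine (ENNReal.tsum_le_tsum h1).trans ?_
  have h2 : Summable fun i : ℕ => th δ ^ ex k * th δ ^ i :=
    (summable_geometric_of_lt_one hp.le hl).mul_left _
  rw [← ENNReal.ofReal_tsum_of_nonneg (fun i => by positivity) h2, tsum_mul_left,
    tsum_geometric_of_lt_one hp.le hl]
  exact le_of_eq (by rw [tau, div_eq_mul_inv])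

/-- partial sums -/
noncomputable def Pk (m : ℕ → ℕ) (k : ℕ) (t : ℝ) : ℝ≥0∞ := ∑ j ∈ Finset.range k, (m j : ℝ≥0∞) * q j t

lemma Z_split (m : ℕ → ℕ) (k : ℕ) (t : ℝ) :
    Z m t = Pk m k t + ∑' i, (m (i + k) : ℝ≥0∞) * q (i + k) t := by
  unfold Z Pk
  exact (Summable.sum_add_tsum_nat_add' ENNReal.summable).symm

lemma Pk_ratio (m : ℕ → ℕ) (k : ℕ) {t t' : ℝ} (h : t ≤ t') :
    Pk m k t' * ENNReal.ofReal (16 ^ (t' - t)) ≤ Pk m k t := by
  unfold Pk
  rw [Finset.sum_mul]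
  refine Finset.sum_le_sum fun j _ => ?_
  rw [mul_assoc]
  exact mul_le_mul_right (q_ratio h j) _

lemma one_add_le_16 {u : ℝ} (hu : 0 ≤ u) : 1 + u ≤ (16 : ℝ) ^ u := by
  have h1 : Real.exp u ≤ (16 : ℝ) ^ u := by
    rw [← Real.exp_one_rpow]
    exact Real.rpow_le_rpow (Real.exp_pos _).le (by have := Real.exp_one_lt_d9; linarith) hu
  have h2 := Real.add_one_le_exp u
  linarith

lemma close {δ : ℝ} (hδ : 0 < δ) {k : ℕ} (hτ : tau δ k ≤ 1 / 2) {F F' : Set Ed}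
    (h : ∀ j < k, cnt F j = cnt F' j) (h1 : 1 / 2 + δ < dd F) : dd F' - dd F ≤ 2 * tau δ k := by
  by_contra hc
  push Not at hc
  have hτ0 := tau_pos hδ k
  set η : ℝ := (dd F' - dd F - 2 * tau δ k) / 4 with hη
  have hη0 : 0 < η := by rw [hη]; linarith
  set t := dd F + η with ht
  set t' := dd F' - η with ht'
  have hu : 2 * tau δ k < t' - t := by rw [ht, ht']; linarith
  have htpos : 0 < t := by rw [ht]; linarith
  have htpos' : 0 < t' := by linarith
  have hZ : Z (cnt F) t ≤ 1 := by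
    by_contra hn
    push Not at hn
    have := le_dd htpos hn
    linarith
  have hZ' : 1 < Z (cnt F') t' := by
    by_contra hn
    push Not at hn
    have := dd_le htpos' hn
    linarith
  have hP : Pk (cnt F') k t = Pk (cnt F) k t := by
    unfold Pk
    refine Finset.sum_congr rfl fun j hj => ?_
    rw [h j (Finset.mem_range.1 hj)]
  have h2 := Pk_ratio (cnt F') k (t := t) (t' := t') (by linarith)
  rw [hP] at h2
  have h3 : Pk (cnt F) k t ≤ 1 := by
    refine le_trans ?_ hZ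
    rw [Z_split (cnt F) k t]
    exact le_self_add
  have h4 := h2.trans h3
  rw [Z_split (cnt F') k t'] at hZ'
  have h5 := lt_of_lt_of_le hZ' (add_le_add_right (tail_le hδ (t := t') (by linarith) (cnt_le F') k) _)
  have h16 : 1 + (t' - t) ≤ (16 : ℝ) ^ (t' - t) := one_add_le_16 (by linarith)
  have hfin : Pk (cnt F') k t' ≠ ⊤ := by
    intro htop
    rw [htop, ENNReal.top_mul] at h4
    · simp at h4
    · exact (ENNReal.ofReal_pos.2 (by positivity)).ne'
  obtain ⟨p, hp⟩ : ∃ p : ℝ, 0 ≤ p ∧ Pk (cnt F') k t' = ENNReal.ofReal p :=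
    ⟨(Pk (cnt F') k t').toReal, ENNReal.toReal_nonneg, (ENNReal.ofReal_toReal hfin).symm⟩
  obtain ⟨hp0, hp⟩ := hp
  rw [hp, ← ENNReal.ofReal_mul hp0, ← ENNReal.ofReal_one,
    ENNReal.ofReal_le_ofReal_iff zero_le_one] at h4
  rw [hp, ← ENNReal.ofReal_add hp0 hτ0.le, ← ENNReal.ofReal_one,
    ENNReal.ofReal_lt_ofReal_iff_of_nonneg zero_le_one] at h5
  nlinarith [mul_le_mul_of_nonneg_left h16 hp0]

/-! ### counting -/

lemma sum_ex (k : ℕ) : ∑ j ∈ Finset.range (k + 1), (ex j + 1) ≤ 3 * ex k := by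
  induction k with
  | zero => simp [ex, Nat.factorial]
  | succ k ih =>
    rw [Finset.sum_range_succ]
    have h1 := ex_succ k
    have h2 := ex_pos k
    have h3 := ex_pos (k + 1)
    have h4 : 3 * ex k ≤ ex (k + 1) := by
      rw [h1]
      exact Nat.mul_le_mul_right _ (by omega)
    omega

/-- count vectors -/
abbrev CV (k : ℕ) : Type := (j : Fin (k + 1)) → Fin (NN j + 1)

lemma card_CV (k : ℕ) : Fintype.card (CV k) ≤ 2 ^ (3 * ex k) := by
  rw [Fintype.card_pi]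
  simp only [Fintype.card_fin]
  rw [← Finset.prod_range (fun j => NN j + 1)]
  calc ∏ j ∈ Finset.range (k + 1), (NN j + 1) ≤ ∏ j ∈ Finset.range (k + 1), 2 ^ (ex j + 1) := by
        refine Finset.prod_le_prod' fun j _ => ?_
        have : 1 ≤ NN j := Nat.one_le_two_pow
        rw [pow_succ]
        show NN j + 1 ≤ NN j * 2
        omega
    _ = 2 ^ ∑ j ∈ Finset.range (k + 1), (ex j + 1) := Finset.prod_pow_eq_pow_sum _ _ _
    _ ≤ 2 ^ (3 * ex k) := Nat.pow_le_pow_right (by norm_num) (sum_ex k)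

/-- the upper part -/
def Up (δ : ℝ) : Set ℝ := {s | s ∈ Spec ∧ 1 / 2 + δ < s}

/-- the pieces of the upper part -/
def Pc (δ : ℝ) (k : ℕ) (c : CV k) : Set ℝ :=
  {s | ∃ F : Set Ed, s = dd F ∧ 1 / 2 + δ < s ∧ ∀ j : Fin (k + 1), cnt F j = c j}

lemma tau_tendsto {δ : ℝ} (hδ : 0 < δ) : Tendsto (tau δ) atTop (𝓝 0) := by
  have hp := th_pos δ
  have hl := th_lt hδ
  have h1 : Tendsto (fun k : ℕ => th δ ^ ex k) atTop (𝓝 0) := by
    refine squeeze_zero (fun k => by positivity) (fun k => ?_)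
      (tendsto_pow_atTop_nhds_zero_of_lt_one hp.le hl)
    exact pow_le_pow_of_le_one hp.le hl.le (by have := ex_ge k; omega)
  have h2 := h1.div_const (1 - th δ)
  rw [zero_div] at h2
  exact h2

lemma ediam_Pc {δ : ℝ} (hδ : 0 < δ) {k : ℕ} (hτ : tau δ (k + 1) ≤ 1 / 2) (c : CV k) :
    Metric.ediam (Pc δ k c) ≤ ENNReal.ofReal (2 * tau δ (k + 1)) := by
  apply Metric.ediam_le
  rintro s ⟨F, hs, h1, hF⟩ s' ⟨F', hs', h1', hF'⟩
  rw [edist_dist]
  apply ENNReal.ofReal_le_ofReal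
  rw [Real.dist_eq, abs_le]
  have heq : ∀ j < k + 1, cnt F j = cnt F' j := by
    intro j hj
    have h2 := hF ⟨j, hj⟩
    have h3 := hF' ⟨j, hj⟩
    simp only at h2 h3
    rw [h2, h3]
  subst hs hs'
  have h2 := close hδ hτ heq h1
  have h3 := close hδ hτ (fun j hj => (heq j hj).symm) h1'
  constructor <;> linarith

lemma cover {δ : ℝ} (k : ℕ) : Up δ ⊆ ⋃ c, Pc δ k c := by
  rintro s ⟨⟨F, _, hF⟩, hs⟩
  rw [mem_iUnion]
  exact ⟨fun j => ⟨cnt F j, Nat.lt_succ_of_le (cnt_le F j)⟩, F, hF, hs, fun j => rfl⟩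

lemma bound {δ σ : ℝ} (hδ : 0 < δ) (hσ : 0 < σ) : ∀ᶠ k : ℕ in atTop,
    (2 : ℝ) ^ (3 * ex k) * (2 * tau δ (k + 1)) ^ σ ≤ (2 / (1 - th δ)) ^ σ := by
  have hp := th_pos δ
  have hl := th_lt hδ
  have h1 : ∀ᶠ k : ℕ in atTop, 3 / (2 * δ * σ) ≤ (k : ℝ) := 
    (tendsto_natCast_atTop_atTop).eventually_ge_atTop _
  filter_upwards [h1] with k hk
  have hds : 0 < 2 * δ * σ := by positivity
  have hk' : 3 ≤ 2 * δ * σ * (k + 3) := by
    rw [div_le_iff₀ hds] at hk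
    nlinarith
  have e1 : 2 * tau δ (k + 1) = 2 / (1 - th δ) * th δ ^ ex (k + 1) := by
    unfold tau
    ring
  have h0 : 0 < 2 / (1 - th δ) := div_pos (by norm_num) (by linarith)
  rw [e1, Real.mul_rpow h0.le (by positivity)]
  have e2 : (th δ ^ ex (k + 1)) ^ σ = (2 : ℝ) ^ (-(2 * δ * σ * (k + 3)) * (ex k : ℝ)) := by
    unfold th
    rw [← Real.rpow_natCast, ← Real.rpow_mul (by positivity), ← Real.rpow_mul (by positivity), ex_succ]
    push_cast
    ring_nf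
  rw [e2, ← Real.rpow_natCast]
  have h3 : (2 : ℝ) ^ (((3 * ex k : ℕ) : ℝ)) * (2 : ℝ) ^ (-(2 * δ * σ * (k + 3)) * (ex k : ℝ)) ≤ 1 := by
    rw [← Real.rpow_add (by norm_num)]
    apply Real.rpow_le_one_of_one_le_of_nonpos (by norm_num)
    push_cast
    have : (0 : ℝ) ≤ ex k := by positivity
    nlinarith
  have h4 : 0 < (2 / (1 - th δ)) ^ σ := by positivity
  calc (2 : ℝ) ^ (((3 * ex k : ℕ) : ℝ)) * ((2 / (1 - th δ)) ^ σ *
        (2 : ℝ) ^ (-(2 * δ * σ * (k + 3)) * (ex k : ℝ))) = (2 / (1 - th δ)) ^ σ *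
        ((2 : ℝ) ^ (((3 * ex k : ℕ) : ℝ)) * (2 : ℝ) ^ (-(2 * δ * σ * (k + 3)) * (ex k : ℝ))) := by ring
    _ ≤ (2 / (1 - th δ)) ^ σ * 1 := mul_le_mul_of_nonneg_left h3 h4.le
    _ = _ := mul_one _

lemma dimH_Up_le {δ σ : ℝ} (hδ : 0 < δ) (hσ : 0 < σ) : dimH (Up δ) ≤ ENNReal.ofReal σ := by
  have hl := th_lt hδ
  have h0 : 0 < 2 / (1 - th δ) := div_pos (by norm_num) (by linarith)
  have hτ : ∀ᶠ k : ℕ in atTop, tau δ (k + 1) ≤ 1 / 2 :=
    ((tendsto_add_atTop_iff_nat 1).2 (tau_tendsto hδ)).eventually_le_const (by norm_num)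
  have hr : Tendsto (fun k => ENNReal.ofReal (2 * tau δ (k + 1))) atTop (𝓝 0) := by
    rw [← ENNReal.ofReal_zero]
    apply ENNReal.tendsto_ofReal
    have := ((tendsto_add_atTop_iff_nat 1).2 (tau_tendsto hδ)).const_mul 2
    simpa using this
  have h1 := hausdorffMeasure_le_liminf_sum (ι := CV) σ (Up δ) (l := atTop)
    (fun k => ENNReal.ofReal (2 * tau δ (k + 1))) hr
    (fun k c => Pc δ k c) (hτ.mono fun k hk c => ediam_Pc hδ hk c)
    (Eventually.of_forall fun k => cover k)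
  have h2 : liminf (fun k => ∑ c : CV k, Metric.ediam (Pc δ k c) ^ σ) atTop ≤
      ENNReal.ofReal ((2 / (1 - th δ)) ^ σ) := by
    have h3 : liminf (fun _ : ℕ => ENNReal.ofReal ((2 / (1 - th δ)) ^ σ)) atTop =
      ENNReal.ofReal ((2 / (1 - th δ)) ^ σ) := by simp
    rw [← h3]
    refine liminf_le_liminf ?_
    filter_upwards [hτ, bound hδ hσ] with k hk hb
    calc ∑ c : CV k, Metric.ediam (Pc δ k c) ^ σ ≤ ∑ _c : CV k, ENNReal.ofReal (2 * tau δ (k + 1)) ^ σ :=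
          Finset.sum_le_sum fun c _ => ENNReal.rpow_le_rpow (ediam_Pc hδ hk c) hσ.le
      _ = (Fintype.card (CV k) : ℝ≥0∞) * ENNReal.ofReal (2 * tau δ (k + 1)) ^ σ := by
          rw [Finset.sum_const, Finset.card_univ, nsmul_eq_mul]
      _ ≤ ((2 ^ (3 * ex k) : ℕ) : ℝ≥0∞) * ENNReal.ofReal (2 * tau δ (k + 1)) ^ σ := by
          gcongr
          exact card_CV k
      _ = ENNReal.ofReal ((2 : ℝ) ^ (3 * ex k) * (2 * tau δ (k + 1)) ^ σ) := by
          have := tau_pos hδ (k + 1)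
          rw [ENNReal.ofReal_mul (p := (2 : ℝ) ^ (3 * ex k)) (by positivity),
            ENNReal.ofReal_rpow_of_nonneg (by positivity) hσ.le, ← ENNReal.ofReal_natCast]
          push_cast
          rfl
      _ ≤ _ := ENNReal.ofReal_le_ofReal hb
  have h4 : μH[((σ.toNNReal : ℝ≥0) : ℝ)] (Up δ) ≠ ⊤ := by
    rw [Real.coe_toNNReal _ hσ.le]
    exact ne_top_of_le_ne_top ENNReal.ofReal_ne_top (h1.trans h2)
  exact dimH_le_of_hausdorffMeasure_ne_top h4

theorem dimH_Up {δ : ℝ} (hδ : 0 < δ) : dimH (Up δ) = 0 := by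
  refine le_antisymm (le_of_forall_pos_le_add ?_) bot_le
  intro ε hε
  rcases eq_or_ne ε ⊤ with h | h
  · rw [h]; simp
  · rw [zero_add]
    have h1 := dimH_Up_le hδ (ENNReal.toReal_pos hε.ne' h)
    rwa [ENNReal.ofReal_toReal h] at h1

end Pool.Agent.Q187.Sim
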