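import Mathlib
import Pool.Agent.Q187.Sim.Upper
import Pool.Agent.Q187.Sim.ToCIFS

set_option autoImplicit false

/-!
# Local dimensions of the dimension spectrum of the block system
-/

open Filter Topology Set MeasureTheory MeasureTheory.Measure
open scoped ENNReal NNReal

namespace Pool.Agent.Q187.Sim

/-- the blocks from `K` on -/
def FK (K : ℕ) : Set Ed := {e | K ≤ e.1}

lemma FK_nonempty (K : ℕ) : (FK K).Nonempty :=
  ⟨⟨K, ⟨0, by unfold NN; positivity⟩⟩, show K ≤ K from le_refl _⟩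

lemma cnt_FK (K k : ℕ) : cnt (FK K) k = if K ≤ k then NN k else 0 := by
  classical
  unfold cnt FK
  split_ifs with h
  · have h1 : (Finset.univ.filter fun i : Fin (NN k) => (⟨k, i⟩ : Ed) ∈ {e : Ed | K ≤ e.1}) =
        Finset.univ := by
      ext i
      simp [h]
    have h2 : (Finset.univ.filter fun i : Fin (NN k) => (⟨k, i⟩ : Ed) ∈ {e : Ed | K ≤ e.1}).card =
        NN k := by
      rw [h1]
      simp
    convert h2
  · have h1 : (Finset.univ.filter fun i : Fin (NN k) => (⟨k, i⟩ : Ed) ∈ {e : Ed | K ≤ e.1}) =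
        ∅ := by
      ext i
      simp [h]
    have h2 : (Finset.univ.filter fun i : Fin (NN k) => (⟨k, i⟩ : Ed) ∈ {e : Ed | K ≤ e.1}).card =
        0 := by
      rw [h1]
      simp
    convert h2

lemma half_lt_dd (K : ℕ) : 1 / 2 < dd (FK K) := by
  set u : ℝ := 1 / (4 * ex (K + 1)) with hu
  have hex : (0 : ℝ) < ex (K + 1) := by exact_mod_cast ex_pos (K + 1)
  have hu0 : 0 < u := by rw [hu]; positivity
  have hterm : ∀ j, K ≤ j → j ≤ K + 1 →
      ENNReal.ofReal ((2 : ℝ) ^ (-(1 / 2 : ℝ))) ≤ (cnt (FK K) j : ℝ≥0∞) * q j (1 / 2 + u) := by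
    intro j h1 h2
    rw [cnt_FK, if_pos h1]
    unfold q
    rw [← ENNReal.ofReal_natCast, ← ENNReal.ofReal_mul (by positivity)]
    apply ENNReal.ofReal_le_ofReal
    have h3 := NN_ge j
    have h4 : (NN j : ℝ) * (NN j : ℝ) ^ (-(2 * (1 / 2 + u))) = (2 : ℝ) ^ (-(2 * u) * ex j) := by
      have e1 : (NN j : ℝ) * (NN j : ℝ) ^ (-(2 * (1 / 2 + u))) = (NN j : ℝ) ^ (-(2 * u)) := by
        have e2 : (-(2 * u)) = 1 + (-(2 * (1 / 2 + u))) := by ring
        rw [e2, Real.rpow_add (by linarith), Real.rpow_one]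
      rw [e1]
      unfold NN
      push_cast
      rw [← Real.rpow_natCast, ← Real.rpow_mul (by norm_num), mul_comm]
    rw [h4]
    apply Real.rpow_le_rpow_of_exponent_le (by norm_num)
    have h5 : (ex j : ℝ) ≤ ex (K + 1) := by
      have : ex j ≤ ex (K + 1) := Nat.factorial_le (by omega)
      exact_mod_cast this
    have h6 : u * ex j ≤ 1 / 4 := by
      rw [hu, div_mul_eq_mul_div, one_mul, div_le_div_iff₀ (by positivity) (by norm_num)]
      linarith
    linarith
  have hZ : 1 < Z (cnt (FK K)) (1 / 2 + u) := by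
    have h1 : ∑ j ∈ ({K, K + 1} : Finset ℕ), (cnt (FK K) j : ℝ≥0∞) * q j (1 / 2 + u) ≤
        Z (cnt (FK K)) (1 / 2 + u) := ENNReal.sum_le_tsum _
    rw [Finset.sum_pair (by omega)] at h1
    refine lt_of_lt_of_le ?_ h1
    refine lt_of_lt_of_le ?_ (add_le_add (hterm K (le_refl _) (by omega))
      (hterm (K + 1) (by omega) (le_refl _)))
    rw [← ENNReal.ofReal_add (by positivity) (by positivity), ← ENNReal.ofReal_one,
      ENNReal.ofReal_lt_ofReal_iff_of_nonneg zero_le_one]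
    have h2 : (2 : ℝ) ^ (-(1 / 2 : ℝ)) + (2 : ℝ) ^ (-(1 / 2 : ℝ)) = (2 : ℝ) ^ (1 / 2 : ℝ) := by
      rw [← two_mul]
      nth_rewrite 1 [← Real.rpow_one 2]
      rw [← Real.rpow_add (by norm_num)]
      norm_num
    rw [h2]
    exact Real.one_lt_rpow (by norm_num) (by norm_num)
  have h7 := le_dd (F := FK K) (t := 1 / 2 + u) (by linarith) hZ
  linarith

lemma dd_FK_le {δ : ℝ} (hδ : 0 < δ) : ∀ᶠ K : ℕ in atTop, dd (FK K) ≤ 1 / 2 + δ := by
  filter_upwards [(tau_tendsto hδ).eventually_le_const (show (0 : ℝ) < 1 by norm_num)] with K hK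
  apply dd_le (by linarith)
  rw [Z_split _ K]
  have h1 : Pk (cnt (FK K)) K (1 / 2 + δ) = 0 := by
    unfold Pk
    refine Finset.sum_eq_zero fun j hj => ?_
    have := Finset.mem_range.1 hj
    rw [cnt_FK, if_neg (by omega)]
    simp
  rw [h1, zero_add]
  refine (tail_le hδ (le_refl _) (cnt_le _) K).trans ?_
  rw [← ENNReal.ofReal_one]
  exact ENNReal.ofReal_le_ofReal hK

lemma dd_le_one (F : Set Ed) : dd F ≤ 1 := by
  have h : dimH (BS.J F) ≤ 1 := (dimH_mono (subset_univ _)).trans (by simp [Real.dimH_univ])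
  have := ENNReal.toReal_mono ENNReal.one_ne_top h
  simpa [dd] using this

lemma dd_FK_mem (K : ℕ) : dd (FK K) ∈ Spec := ⟨_, FK_nonempty K, rfl⟩

/-- local dimension above one half -/
theorem locDim_zero {D : Set ℝ} (hD : D ⊆ Spec ∪ {0}) {x : ℝ} (hx : 1 / 2 < x) : locDim D x = 0 := by
  set δ := (x - 1 / 2) / 2 with hδ
  have hδ0 : 0 < δ := by rw [hδ]; linarith
  refine le_antisymm ?_ bot_le
  rw [← dimH_Up hδ0]
  unfold locDim
  refine (iInf₂_le δ hδ0).trans (dimH_mono ?_)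
  rintro s ⟨hs, hb⟩
  rw [Metric.mem_ball, Real.dist_eq, abs_lt] at hb
  have h1 : 1 / 2 + δ < s := by rw [hδ] at hb ⊢; linarith [hb.1]
  refine ⟨?_, h1⟩
  rcases hD hs with h | h
  · exact h
  · rw [mem_singleton_iff] at h
    linarith

/-- local dimension at one half -/
theorem locDim_one {D : Set ℝ} (hD : Spec ⊆ D) : locDim D (1 / 2) = 1 := by
  unfold locDim
  refine le_antisymm ?_ (le_iInf₂ fun ε hε => ?_)
  · exact (iInf₂_le 1 one_pos).trans ((dimH_mono (subset_univ _)).trans (by simp [Real.dimH_univ]))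
  · have h1 : Ioo (max 0 (1 / 2 - ε)) (1 / 2) ⊆ D ∩ Metric.ball (1 / 2) ε := by
      intro s hs
      have h2 := (le_max_left (0 : ℝ) (1 / 2 - ε)).trans_lt hs.1
      have h3 := (le_max_right (0 : ℝ) (1 / 2 - ε)).trans_lt hs.1
      refine ⟨hD (mem_Spec_of_le h2 hs.2.le), ?_⟩
      rw [Metric.mem_ball, Real.dist_eq, abs_lt]
      constructor <;> linarith [hs.2]
    refine le_trans ?_ (dimH_mono h1)
    have h4 : (interior (Ioo (max 0 (1 / 2 - ε)) (1 / 2 : ℝ))).Nonempty := by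
      rw [interior_Ioo, nonempty_Ioo]
      exact max_lt (by norm_num) (by linarith)
    rw [Real.dimH_of_nonempty_interior h4]
    simp

/-- the spectrum is no finite union of intervals -/
theorem not_typeI {D : Set ℝ} (hD : D ⊆ Spec ∪ {0}) (hD' : Spec ⊆ D) {n : ℕ} (I : Fin n → Set ℝ)
    (hI : ∀ i, (I i).OrdConnected) : D ≠ ⋃ i, I i := by
  intro h
  have hsub : ∀ i, (I i ∩ Ioi (1 / 2)).Subsingleton := by
    intro i
    by_contra hns
    rw [Set.not_subsingleton_iff] at hns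
    obtain ⟨x, hx, y, hy, hxy⟩ := hns
    wlog hlt : x < y generalizing x y
    · exact this y hy x hx hxy.symm (lt_of_le_of_ne (not_lt.1 hlt) hxy.symm)
    have h1 : Icc x y ⊆ I i := (hI i).out hx.1 hy.1
    have hx2 : (1 : ℝ) / 2 < x := hx.2
    have hδ : 0 < (x - 1 / 2) / 2 := by linarith
    have h2 : Icc x y ⊆ Up ((x - 1 / 2) / 2) := by
      intro s hs
      have h3 : s ∈ D := by
        rw [h, mem_iUnion]
        exact ⟨i, h1 hs⟩
      refine ⟨?_, by linarith [hs.1]⟩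
      rcases hD h3 with h4 | h4
      · exact h4
      · rw [mem_singleton_iff] at h4
        linarith [hs.1]
    have h5 := dimH_mono h2
    rw [dimH_Up hδ, Real.dimH_of_nonempty_interior (by rw [interior_Icc, nonempty_Ioo]; exact hlt)] at h5
    simp at h5
  have hfin : (D ∩ Ioi (1 / 2)).Finite := by
    rw [h, iUnion_inter]
    exact finite_iUnion fun i => (hsub i).finite
  have hne : (D ∩ Ioi (1 / 2)).Nonempty := ⟨_, hD' (dd_FK_mem 0), half_lt_dd 0⟩
  obtain ⟨a, ha, hmin⟩ := hfin.exists_minimalFor id _ hne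
  have ha2 : (1 : ℝ) / 2 < a := ha.2
  obtain ⟨K, hK⟩ := (dd_FK_le (δ := (a - 1 / 2) / 2) (by linarith)).exists
  have h6 := hmin (j := dd (FK K)) ⟨hD' (dd_FK_mem K), half_lt_dd K⟩
    (by simp only [id]; linarith)
  simp only [id] at h6
  linarith

end Pool.Agent.Q187.Sim
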